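import Pool.Agent.H29.SX.Targets

set_option autoImplicit false

/-!
# MP_c65535_nt, the sharp exponent, row ANA: the analytic inequality
-/

namespace Pool.Agent.H63.SX

open Pool.Agent.H29.SX Pool.Agent.H29.RQ Pool.Agent.H23.RDD Pool.Agent.H24.RD NumberField Height
  Finset Polynomial

/-- the coefficients of the jets are integers which are not large -/
theorem ana_jc {M : Type} [Field M] {m : ℕ} (κ : Fin m → ℕ) (a : Fin m → ℤ) (Z : ℝ) (hZ : 1 ≤ Z)
    (ha : ∀ l, |(a l : ℝ)| ≤ Z) (t : ℕ) (hκ : ∑ l, κ l < t) :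
    jc M κ a = (((∏ l, a l ^ κ l : ℤ) : ℤ) : M) ∧ |((∏ l, a l ^ κ l : ℤ) : ℝ)| ≤ Z ^ t := by
  refine ⟨?_, ?_⟩
  · unfold jc
    push_cast
    rfl
  · push_cast
    rw [Finset.abs_prod]
    calc ∏ l, |(a l : ℝ) ^ κ l| ≤ ∏ l, Z ^ κ l := by
          refine Finset.prod_le_prod (fun _ _ => abs_nonneg _) fun l _ => ?_
          rw [abs_pow]
          exact pow_le_pow_left₀ (abs_nonneg _) (ha l) _
      _ = Z ^ (∑ l, κ l) := Finset.prod_pow_eq_pow_sum _ _ _
      _ ≤ Z ^ t := pow_le_pow_right₀ hZ hκ.le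

theorem pf_ANA (h1 : T_HA) (h2 : T_HB) (h3 : T_HTS) (h4 : T_JHT) (h5 : T_NRM) (h6 : T_ANB) :
    T_ANA := by
  intro F Ω _ _ _ _ _ _ _ p hp r γ hγ0 hγp E hE hEn hEK f δ hδ hδ1 Φ hΦ β g hβ hg n x hn hgx hx X
    hX1 hX2 hRed hlam ρ s t e0 k e' hρ hfe hk R d0 nn hinj hnn hCols
  have hQΩ : Algebra.IsAlgebraic ℚ Ω := Algebra.IsAlgebraic.trans ℚ F Ω
  obtain ⟨hnn0, -, -, -, -, hconj, -⟩ := h2 Ω
  set lam : ℝ := absLogHeight₁ (β * g) with hlamdef
  set H : ℝ := Hg F Ω γ with hHdef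
  have hsum0 : 0 ≤ ∑ i, absLogHeight₁ (algebraMap F Ω (γ i)) := sum_nonneg fun i _ => hnn0 _
  have hHe : H = 1 + ∑ i, absLogHeight₁ (algebraMap F Ω (γ i)) := rfl
  have hH1 : 1 ≤ H := by linarith
  have hH0 : 0 < H := by linarith
  have hn0 : (0 : ℝ) < n := by exact_mod_cast hn
  have hξ : ∀ i, 0 ≤ (x i : ℝ) / n ∧ (x i : ℝ) / n ≤ 1 := by
    intro i
    have e1 : (0 : ℝ) ≤ (x i : ℝ) := by exact_mod_cast (hx i).1
    have e2 : (x i : ℝ) ≤ (n : ℝ) := by exact_mod_cast (hx i).2.le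
    exact ⟨div_nonneg e1 hn0.le, (div_le_one hn0).mpr e2⟩
  obtain ⟨-, hN⟩ := h5 r lam H (fun i => (x i : ℝ) / n) hlam hH1 hξ
  obtain ⟨hN1, -⟩ := hN ρ hρ
  set Z : ℝ := 1 + ρ + ρ / lam with hZdef
  have hρlam : 0 ≤ ρ / lam := div_nonneg hρ hlam.le
  have hZ1 : 1 ≤ Z := by linarith
  have hlogZ : 0 ≤ Real.log Z := Real.log_nonneg hZ1
  have hp1 : (1 : ℝ) < (p : ℝ) := by exact_mod_cast hp.one_lt
  have hQ1 : (1 : ℝ) ≤ (p : ℝ) ^ f := one_le_pow₀ hp1.le
  obtain ⟨M, hM, a, ν, ψA, κA, ψB, cB, zA, zB, hgM, hMn, haR, had, hzA, hzB, hineq⟩ :=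
    h6 F Ω p hp r γ hγ0 hγp E hE hEn hEK f δ hδ hδ1 Φ hΦ β g hβ X hX1 hX2 hRed s t e0 k e' hfe hk
      R d0 nn hCols
  have hdeg : (0 : ℝ) < (Module.finrank ℚ M : ℝ) := by
    have : 0 < Module.finrank ℚ M := Module.finrank_pos
    exact_mod_cast this
  -- the height of a row of values
  have hrow : ∀ (ψ : Ω ≃ₐ[F] Ω) (z : M) (q : ℕ), (z : Ω) = ψ β →
      logHeight (fun j => (pt (fun l => algebraMap F M (γ l)) z (nn j)) ^ q) ≤
        q * (4 * ρ) * Module.finrank ℚ M := by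
    intro ψ z q hz
    have hz0 : z ≠ 0 := by
      intro h
      rw [h] at hz
      have e1 : ψ β = 0 := hz.symm
      rw [map_eq_zero_iff ψ ψ.injective] at e1
      exact hβ e1
    let w : M := ⟨ψ g, hMn ψ g hgM⟩
    have hw : (w : Ω) = ψ g := rfl
    have hw0 : w ≠ 0 := by
      intro h
      rw [h] at hw
      have e1 : ψ g = 0 := hw.symm
      rw [map_eq_zero_iff ψ ψ.injective] at e1
      exact hg e1
    have hγM : ∀ i, algebraMap F M (γ i) ≠ 0 := by
      intro i h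
      rw [map_eq_zero_iff _ (algebraMap F M).injective] at h
      exact hγ0 i h
    have hwn : w ^ n = ∏ i, (algebraMap F M (γ i)) ^ x i := by
      apply (algebraMap M Ω).injective
      rw [map_pow, map_prod]
      have e1 : algebraMap M Ω w = ψ g := rfl
      rw [e1, ← map_pow, hgx, map_prod]
      refine prod_congr rfl fun i _ => ?_
      rw [map_zpow₀, map_zpow₀]
      congr 1
      exact ψ.commutes (γ i)
    have hts := h3 M r R q n z w (fun l => algebraMap F M (γ l)) x nn (ρ / lam) (ρ / H) hz0 hw0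
      hγM hn hwn hρlam (div_nonneg hρ hH0.le) (fun j => (hN1 (nn j) (hnn j)).1)
      (fun j i => (hN1 (nn j) (hnn j)).2.1 i)
    have e2 : logHeight₁ (z * w) = lam * Module.finrank ℚ M := by
      have e3 := h1 M Ω (z * w)
      have e4 : algebraMap M Ω (z * w) = ψ (β * g) := by
        rw [map_mul, map_mul]
        have e5 : algebraMap M Ω z = ψ β := hz
        have e6 : algebraMap M Ω w = ψ g := rfl
        rw [e5, e6]
      have e7 : absLogHeight₁ (ψ (β * g)) = lam := hconj ψ.toRingEquiv (β * g)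
      rw [e4, e7, eq_div_iff hdeg.ne'] at e3
      exact e3.symm
    have e3 : ∑ i, logHeight₁ (algebraMap F M (γ i)) ≤ H * Module.finrank ℚ M := by
      have e4 : ∀ i, logHeight₁ (algebraMap F M (γ i)) =
          absLogHeight₁ (algebraMap F Ω (γ i)) * Module.finrank ℚ M := by
        intro i
        have e5 := h1 M Ω (algebraMap F M (γ i))
        have e6 : algebraMap M Ω (algebraMap F M (γ i)) = algebraMap F Ω (γ i) := rfl
        rw [e6, eq_div_iff hdeg.ne'] at e5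
        exact e5.symm
      simp only [e4]
      rw [← sum_mul]
      refine mul_le_mul_of_nonneg_right ?_ hdeg.le
      linarith
    refine hts.trans ?_
    rw [e2]
    have e5 : 2 * (ρ / lam) * (lam * (Module.finrank ℚ M : ℝ)) = 2 * ρ * Module.finrank ℚ M := by
      field_simp
    have e6 : 2 * (ρ / H) * ∑ i, logHeight₁ (algebraMap F M (γ i)) ≤
        2 * ρ * Module.finrank ℚ M := by
      calc 2 * (ρ / H) * ∑ i, logHeight₁ (algebraMap F M (γ i))
          ≤ 2 * (ρ / H) * (H * Module.finrank ℚ M) :=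
            mul_le_mul_of_nonneg_left e3 (by positivity)
        _ = 2 * ρ * Module.finrank ℚ M := by field_simp
    have e7 : (0 : ℝ) ≤ (q : ℝ) := Nat.cast_nonneg q
    calc (q : ℝ) * (2 * (ρ / lam) * (lam * (Module.finrank ℚ M : ℝ)) +
          2 * (ρ / H) * ∑ i, logHeight₁ (algebraMap F M (γ i)))
        ≤ (q : ℝ) * (4 * ρ * Module.finrank ℚ M) := by
          refine mul_le_mul_of_nonneg_left ?_ e7
          linarith
      _ = _ := by ring
  -- the rows of the second kind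
  have hB : ∀ i, logHeight (fun j =>
      (pt (fun l => algebraMap F M (γ l)) (zB i) (nn j)) ^ ((p ^ f) ^ (e0 + cB i))) ≤
      4 * ρ * ((p : ℝ) ^ f) ^ (e0 + s) * Module.finrank ℚ M := by
    intro i
    refine (hrow (ψB i) (zB i) _ (hzB i).1).trans ?_
    refine mul_le_mul_of_nonneg_right ?_ hdeg.le
    have e1 : (((p ^ f) ^ (e0 + cB i) : ℕ) : ℝ) ≤ ((p : ℝ) ^ f) ^ (e0 + s) := by
      push_cast
      exact pow_le_pow_right₀ hQ1 (Nat.add_le_add_left (hzB i).2 _)
    calc (((p ^ f) ^ (e0 + cB i) : ℕ) : ℝ) * (4 * ρ) ≤ ((p : ℝ) ^ f) ^ (e0 + s) * (4 * ρ) :=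
          mul_le_mul_of_nonneg_right e1 (by positivity)
      _ = _ := by ring
  -- the rows of the first kind
  have hA : ∀ i, logHeight (fun j => jc M (κA i) (nn j) *
      (pt (fun l => algebraMap F M (γ l)) (zA i) (nn j)) ^ ((p ^ f) ^ e0)) ≤
      (4 * ρ * ((p : ℝ) ^ f) ^ (e0 + s) + t * Real.log Z) * Module.finrank ℚ M := by
    intro i
    have e0' : ∀ j, jc M (κA i) (nn j) = (((∏ l, nn j l ^ κA i l : ℤ) : ℤ) : M) ∧
        |((∏ l, nn j l ^ κA i l : ℤ) : ℝ)| ≤ Z ^ t := fun j =>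
      ana_jc (κA i) (nn j) Z hZ1 (fun l => (hN1 (nn j) (hnn j)).2.2 l) t (hzA i).2
    have e1 : (fun j => jc M (κA i) (nn j) *
        (pt (fun l => algebraMap F M (γ l)) (zA i) (nn j)) ^ ((p ^ f) ^ e0)) =
        fun j => (((∏ l, nn j l ^ κA i l : ℤ) : ℤ) : M) *
          (pt (fun l => algebraMap F M (γ l)) (zA i) (nn j)) ^ ((p ^ f) ^ e0) := by
      funext j
      rw [(e0' j).1]
    rw [e1]
    refine (h4 M R (fun j => ∏ l, nn j l ^ κA i l) _ (Z ^ t) (one_le_pow₀ hZ1)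
      (fun j => (e0' j).2)).trans ?_
    rw [Real.log_pow, add_mul]
    refine add_le_add ?_ (le_of_eq (mul_comm _ _))
    refine (hrow (ψA i) (zA i) _ (hzA i).1).trans ?_
    refine mul_le_mul_of_nonneg_right ?_ hdeg.le
    have e2 : (((p ^ f) ^ e0 : ℕ) : ℝ) ≤ ((p : ℝ) ^ f) ^ (e0 + s) := by
      push_cast
      exact pow_le_pow_right₀ hQ1 (Nat.le_add_right _ _)
    calc (((p ^ f) ^ e0 : ℕ) : ℝ) * (4 * ρ) ≤ ((p : ℝ) ^ f) ^ (e0 + s) * (4 * ρ) :=
          mul_le_mul_of_nonneg_right e2 (by positivity)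
      _ = _ := by ring
  -- the sums
  set U : ℝ := 4 * ρ * ((p : ℝ) ^ f) ^ (e0 + s) with hU
  have hsA : ∑ i, logHeight (fun j => jc M (κA i) (nn j) *
      (pt (fun l => algebraMap F M (γ l)) (zA i) (nn j)) ^ ((p ^ f) ^ e0)) ≤
      a * ((U + t * Real.log Z) * Module.finrank ℚ M) := by
    refine (sum_le_sum fun i _ => hA i).trans ?_
    rw [sum_const, card_univ, Fintype.card_fin, nsmul_eq_mul]
  have hsB : ∑ i, logHeight (fun j =>
      (pt (fun l => algebraMap F M (γ l)) (zB i) (nn j)) ^ ((p ^ f) ^ (e0 + cB i))) ≤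
      ν * (U * Module.finrank ℚ M) := by
    refine (sum_le_sum fun i _ => hB i).trans ?_
    rw [sum_const, card_univ, Fintype.card_fin, nsmul_eq_mul]
  have haR' : (a : ℝ) + ν = R := by exact_mod_cast haR
  have had' : (a : ℝ) ≤ d0 := by exact_mod_cast had
  have hlogp : 0 ≤ Real.log p := Real.log_nonneg hp1.le
  have ht0 : (0 : ℝ) ≤ t := Nat.cast_nonneg _
  have hlow : ((R : ℝ) - d0) * t * (e' + 1) * Real.log p ≤ ν * (t * (e' + 1)) * Real.log p := by
    have e1 : (R : ℝ) - d0 ≤ ν := by linarith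
    have e2 : (0 : ℝ) ≤ t * (e' + 1) * Real.log p := by positivity
    calc ((R : ℝ) - d0) * t * (e' + 1) * Real.log p = (R - d0) * (t * (e' + 1) * Real.log p) := by
          ring
      _ ≤ ν * (t * (e' + 1) * Real.log p) := mul_le_mul_of_nonneg_right e1 e2
      _ = _ := by ring
  have hup : ν * (t * (e' + 1)) * Real.log p ≤
      R * Real.log R + R * U + a * (t * Real.log Z) := by
    have e1 : (ν * (t * (e' + 1)) * Real.log p) * (Module.finrank ℚ M : ℝ) ≤
        (R * Real.log R + R * U + a * (t * Real.log Z)) * Module.finrank ℚ M := by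
      have e2 : (a : ℝ) * ((U + t * Real.log Z) * Module.finrank ℚ M) +
          ν * (U * Module.finrank ℚ M) =
          (R * U + a * (t * Real.log Z)) * Module.finrank ℚ M := by
        rw [← haR']
        ring
      nlinarith
    exact le_of_mul_le_mul_right e1 hdeg
  have hlast : (a : ℝ) * (t * Real.log Z) ≤ d0 * t * Real.log Z := by
    calc (a : ℝ) * (t * Real.log Z) ≤ d0 * (t * Real.log Z) :=
          mul_le_mul_of_nonneg_right had' (mul_nonneg ht0 hlogZ)
      _ = _ := by ring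
  have hRU : (R : ℝ) * U = 4 * R * ρ * ((p : ℝ) ^ f) ^ (e0 + s) := by
    rw [hU]
    ring
  rw [← hRU]
  linarith

end Pool.Agent.H63.SX
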